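import Pool.Agent.H91.AV.Targets

/-!
# ONE: one coordinate (helper37)
-/

namespace Pool.Agent.H37.AV

open Finset Pool.Agent.H91.AV
open Pool.Agent.H96.KX (psz fac jun PDz prs)

theorem pf_ONE : S_ONE := by
  intro H U Z _ _ _ _ _ h r c hr hmom g V mu hg hV hmu1 hmu2
  have hQ1 : (1 : ℝ) ≤ Fintype.card Z := by
    exact_mod_cast (Fintype.card_pos : 0 < Fintype.card Z)
  have hQ0 : (0 : ℝ) < Fintype.card Z := by linarith
  have hsum : ∀ a, ∑ θ, V a θ = (Fintype.card Z : ℝ) * ∑ u, g u := by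
    intro a
    simp only [hV]
    rw [← Finset.mul_sum, Finset.sum_comm]
    congr 1
    refine Finset.sum_congr rfl (fun u _ => ?_)
    rw [Finset.sum_ite_eq]
    simp
  have hVn : ∀ a θ, 0 ≤ V a θ := by
    intro a θ
    rw [hV]
    refine mul_nonneg hQ0.le (Finset.sum_nonneg (fun u _ => ?_))
    split_ifs
    · exact hg u
    · exact le_rfl
  have hmun : ∀ a, 0 ≤ mu a := by
    intro a
    obtain ⟨θ, hθ⟩ := hmu2 a
    rw [hθ]
    exact hVn a θ
  have hG0 : 0 ≤ ∑ u, g u := Finset.sum_nonneg (fun u _ => hg u)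
  have hmuG : ∀ a, mu a ≤ ∑ u, g u := by
    intro a
    have h1 : (Fintype.card Z : ℝ) * mu a ≤ (Fintype.card Z : ℝ) * ∑ u, g u := by
      rw [← hsum a]
      calc (Fintype.card Z : ℝ) * mu a = ∑ _θ : Z, mu a := by
            rw [Finset.sum_const, Finset.card_univ, nsmul_eq_mul]
        _ ≤ ∑ θ, V a θ := Finset.sum_le_sum (fun θ _ => hmu1 a θ)
    exact le_of_mul_le_mul_left h1 hQ0
  refine ⟨fun a => ?_, fun θ => ?_⟩
  · calc mu a ^ 2 ≤ (∑ u, g u) ^ 2 := pow_le_pow_left₀ (hmun a) (hmuG a) 2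
      _ ≤ (Fintype.card U : ℝ) * ∑ u, g u ^ 2 := by
          have := sq_sum_le_card_mul_sum_sq (s := (Finset.univ : Finset U)) (f := g)
          rwa [Finset.card_univ] at this
  · have hpt : ∀ a, (((V a θ - mu a) / Fintype.card Z) ^ 2) ^ r ≤
        (2 / (Fintype.card Z : ℝ)) ^ (2 * r) * ∑ z, (V a z - ∑ u, g u) ^ (2 * r) := by
      intro a
      obtain ⟨θ', hθ'⟩ := hmu2 a
      have hev : ∀ y : ℝ, 0 ≤ y ^ (2 * r) := fun y => by rw [pow_mul]; positivity
      have hone : ∀ z, |V a z - ∑ u, g u| ^ (2 * r) ≤ ∑ z, (V a z - ∑ u, g u) ^ (2 * r) := by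
        intro z
        rw [pow_mul, sq_abs, ← pow_mul]
        exact Finset.single_le_sum (f := fun z => (V a z - ∑ u, g u) ^ (2 * r))
          (fun z _ => hev _) (Finset.mem_univ z)
      have hd0 : 0 ≤ V a θ - mu a := sub_nonneg.2 (hmu1 a θ)
      have hmax : (V a θ - mu a) ^ (2 * r) ≤
          2 ^ (2 * r) * ∑ z, (V a z - ∑ u, g u) ^ (2 * r) := by
        have htri : V a θ - mu a ≤ |V a θ - ∑ u, g u| + |V a θ' - ∑ u, g u| := by
          rw [hθ']
          have h1 := le_abs_self (V a θ - ∑ u, g u)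
          have h2 := neg_abs_le (V a θ' - ∑ u, g u)
          linarith
        rcases le_total (|V a θ - ∑ u, g u|) (|V a θ' - ∑ u, g u|) with hle | hle
        · calc (V a θ - mu a) ^ (2 * r) ≤ (2 * |V a θ' - ∑ u, g u|) ^ (2 * r) :=
                pow_le_pow_left₀ hd0 (by linarith) _
            _ = 2 ^ (2 * r) * |V a θ' - ∑ u, g u| ^ (2 * r) := mul_pow _ _ _
            _ ≤ _ := mul_le_mul_of_nonneg_left (hone θ') (by positivity)
        · calc (V a θ - mu a) ^ (2 * r) ≤ (2 * |V a θ - ∑ u, g u|) ^ (2 * r) :=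
                pow_le_pow_left₀ hd0 (by linarith) _
            _ = 2 ^ (2 * r) * |V a θ - ∑ u, g u| ^ (2 * r) := mul_pow _ _ _
            _ ≤ _ := mul_le_mul_of_nonneg_left (hone θ) (by positivity)
      calc (((V a θ - mu a) / Fintype.card Z) ^ 2) ^ r
          = (1 / (Fintype.card Z : ℝ)) ^ (2 * r) * (V a θ - mu a) ^ (2 * r) := by
            rw [← pow_mul, ← mul_pow]; congr 1; ring
        _ ≤ (1 / (Fintype.card Z : ℝ)) ^ (2 * r) *
            (2 ^ (2 * r) * ∑ z, (V a z - ∑ u, g u) ^ (2 * r)) :=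
            mul_le_mul_of_nonneg_left hmax (by positivity)
        _ = (2 / (Fintype.card Z : ℝ)) ^ (2 * r) * ∑ z, (V a z - ∑ u, g u) ^ (2 * r) := by
            rw [← mul_assoc, ← mul_pow]; congr 2; ring
    have hMz : ∀ z, ∑ a, (V a z - ∑ u, g u) ^ (2 * r) ≤
        Fintype.card H * c * (∑ u, g u ^ 2) ^ r := by
      intro z
      have := hmom g hg z
      simpa only [hV] using this
    have hK0 : 0 ≤ (Fintype.card H : ℝ) * c * (∑ u, g u ^ 2) ^ r := by
      refine le_trans ?_ (hMz θ)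
      refine Finset.sum_nonneg (fun a _ => ?_)
      rw [pow_mul]; positivity
    have hQr : (1 / (Fintype.card Z : ℝ)) ^ (2 * r) * (Fintype.card Z : ℝ) ≤ 1 := by
      obtain ⟨s, hs⟩ : ∃ s, 2 * r = s + 1 := ⟨2 * r - 1, by omega⟩
      rw [hs, pow_succ, mul_assoc, one_div_mul_cancel hQ0.ne', mul_one]
      refine pow_le_one₀ (by positivity) ?_
      rw [div_le_one hQ0]
      exact hQ1
    calc ∑ a, (((V a θ - mu a) / Fintype.card Z) ^ 2) ^ r
        ≤ ∑ a, (2 / (Fintype.card Z : ℝ)) ^ (2 * r) * ∑ z, (V a z - ∑ u, g u) ^ (2 * r) :=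
          Finset.sum_le_sum (fun a _ => hpt a)
      _ = (2 / (Fintype.card Z : ℝ)) ^ (2 * r) *
            ∑ z, ∑ a, (V a z - ∑ u, g u) ^ (2 * r) := by
          rw [← Finset.mul_sum, Finset.sum_comm]
      _ ≤ (2 / (Fintype.card Z : ℝ)) ^ (2 * r) *
            ∑ _z : Z, Fintype.card H * c * (∑ u, g u ^ 2) ^ r :=
          mul_le_mul_of_nonneg_left (Finset.sum_le_sum (fun z _ => hMz z)) (by positivity)
      _ = (2 ^ (2 * r) * (Fintype.card H * c * (∑ u, g u ^ 2) ^ r)) *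
            ((1 / (Fintype.card Z : ℝ)) ^ (2 * r) * (Fintype.card Z : ℝ)) := by
          rw [Finset.sum_const, Finset.card_univ, nsmul_eq_mul]
          have : (2 / (Fintype.card Z : ℝ)) ^ (2 * r) =
              2 ^ (2 * r) * (1 / (Fintype.card Z : ℝ)) ^ (2 * r) := by
            rw [← mul_pow]; congr 1; ring
          rw [this]; ring
      _ ≤ (2 ^ (2 * r) * (Fintype.card H * c * (∑ u, g u ^ 2) ^ r)) * 1 :=
          mul_le_mul_of_nonneg_left hQr (by positivity)
      _ = (Fintype.card H : ℝ) * (2 ^ (2 * r) * c) * (∑ u, g u ^ 2) ^ r := by ring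

end Pool.Agent.H37.AV
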